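import Pool.Agent.Q67.OR.Stm

/-! # Project OR of helper67: job LAG, Lagrange's theorem on quadratic irrationals -/

set_option autoImplicit false

namespace Pool.Agent.Q129.OR

open Finset Pool.Agent.Q67.OR

noncomputable section

/-- numerators -/
def pl (ξ : ℝ) : ℕ → ℤ
  | 0 => 1
  | 1 => ⌊ξ⌋
  | n + 2 => ⌊cq ξ (n + 1)⌋ * pl ξ (n + 1) + pl ξ n

/-- denominators -/
def ql (ξ : ℝ) : ℕ → ℤ
  | 0 => 0
  | 1 => 1
  | n + 2 => ⌊cq ξ (n + 1)⌋ * ql ξ (n + 1) + ql ξ n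

/-- the errors -/
def tl (ξ : ℝ) (n : ℕ) : ℝ := ql ξ n * ξ - pl ξ n

/-- the fractional parts -/
def xl (ξ : ℝ) (n : ℕ) : ℝ := Int.fract (cq ξ n)

theorem cq_irr {ξ : ℝ} (h : Irrational ξ) (n : ℕ) : Irrational (cq ξ n) := by
  induction n with
  | zero => exact h
  | succ n ih =>
    rw [cq, one_div, irrational_inv_iff, Int.fract]
    exact ih.sub_intCast _

theorem xl_pos {ξ : ℝ} (h : Irrational ξ) (n : ℕ) : 0 < xl ξ n := by
  rw [xl, Int.fract_pos]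
  intro h1
  exact (cq_irr h n).ne_int _ h1

theorem xl_lt {ξ : ℝ} (n : ℕ) : xl ξ n < 1 := Int.fract_lt_one _

theorem cq_succ (ξ : ℝ) (n : ℕ) : cq ξ (n + 1) = 1 / xl ξ n := rfl

theorem floor_eq (ξ : ℝ) (n : ℕ) : ((⌊cq ξ (n + 1)⌋ : ℤ) : ℝ) = 1 / xl ξ n - xl ξ (n + 1) := by
  rw [xl, xl, Int.fract, Int.fract]
  have h1 : cq ξ (n + 1) = 1 / (cq ξ n - ⌊cq ξ n⌋) := by
    rw [cq_succ, xl, Int.fract]
  rw [← h1]
  ring

theorem floor_pos {ξ : ℝ} (h : Irrational ξ) (n : ℕ) : 1 ≤ ⌊cq ξ (n + 1)⌋ := by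
  rw [Int.le_floor, cq_succ, le_div_iff₀ (xl_pos h n)]
  have := xl_lt (ξ := ξ) n
  push_cast
  linarith

theorem tl_two (ξ : ℝ) (n : ℕ) : tl ξ (n + 2) = (⌊cq ξ (n + 1)⌋ : ℤ) * tl ξ (n + 1) + tl ξ n := by
  rw [tl, tl, tl, pl, ql]
  push_cast
  ring

theorem tl_succ {ξ : ℝ} (h : Irrational ξ) (n : ℕ) : tl ξ (n + 1) = -xl ξ n * tl ξ n := by
  induction n with
  | zero =>
    rw [tl, tl, pl, ql, pl, ql, xl, cq, Int.fract]
    push_cast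
    ring
  | succ n ih =>
    have h1 := xl_pos h n
    rw [tl_two, floor_eq]
    have h2 : tl ξ n = -(tl ξ (n + 1) / xl ξ n) := by
      rw [ih]
      field_simp
    rw [h2]
    field_simp
    ring

theorem ql_mono {ξ : ℝ} (h : Irrational ξ) (n : ℕ) : 0 ≤ ql ξ n ∧ 1 ≤ ql ξ (n + 1) ∧ ql ξ n ≤ ql ξ (n + 1) := by
  induction n with
  | zero => simp [ql]
  | succ n ih =>
    obtain ⟨h1, h2, h3⟩ := ih
    have h4 := floor_pos h n
    have h5 : ql ξ (n + 1 + 1) = ⌊cq ξ (n + 1)⌋ * ql ξ (n + 1) + ql ξ n := rfl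
    refine ⟨by omega, ?_, ?_⟩
    · rw [h5]
      nlinarith
    · rw [h5]
      nlinarith

theorem det (ξ : ℝ) (n : ℕ) : ql ξ (n + 1) * pl ξ n - ql ξ n * pl ξ (n + 1) = (-1) ^ n := by
  induction n with
  | zero => simp [ql, pl]
  | succ n ih =>
    rw [pow_succ, ← ih]
    rw [show ql ξ (n + 1 + 1) = ⌊cq ξ (n + 1)⌋ * ql ξ (n + 1) + ql ξ n from rfl,
      show pl ξ (n + 1 + 1) = ⌊cq ξ (n + 1)⌋ * pl ξ (n + 1) + pl ξ n from rfl]
    ring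

theorem tl_le {ξ : ℝ} (h : Irrational ξ) (n : ℕ) : |tl ξ (n + 1)| ≤ |tl ξ n| := by
  rw [tl_succ h, abs_mul, abs_neg, abs_of_pos (xl_pos h n)]
  have := xl_lt (ξ := ξ) n
  nlinarith [abs_nonneg (tl ξ n)]

theorem tl_le_one {ξ : ℝ} (h : Irrational ξ) (n : ℕ) : |tl ξ n| ≤ 1 := by
  induction n with
  | zero =>
    rw [tl, pl, ql]
    simp
  | succ n ih => exact (tl_le h n).trans ih

/-- `q_(n+1) |t_n| + q_n |t_(n+1)| = 1` -/
theorem sum_one {ξ : ℝ} (h : Irrational ξ) (n : ℕ) :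
    (ql ξ (n + 1) : ℝ) * |tl ξ n| + ql ξ n * |tl ξ (n + 1)| = 1 := by
  have h1 : (ql ξ (n + 1) : ℝ) * tl ξ n - ql ξ n * tl ξ (n + 1) = -(-1) ^ n := by
    have h2 : ((ql ξ (n + 1) * pl ξ n - ql ξ n * pl ξ (n + 1) : ℤ) : ℝ) = (-1) ^ n := by
      rw [det]
      push_cast
      ring
    rw [← h2, tl, tl]
    push_cast
    ring
  have hx := xl_pos h n
  have hq := ql_mono h n
  have hq0 : (0 : ℝ) ≤ ql ξ n := by exact_mod_cast hq.1
  have hq1 : (0 : ℝ) ≤ ql ξ (n + 1) := by exact_mod_cast (by omega : 0 ≤ ql ξ (n + 1))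
  have h3 : |(ql ξ (n + 1) : ℝ) * tl ξ n - ql ξ n * tl ξ (n + 1)| = 1 := by
    rw [h1, abs_neg, abs_pow, abs_neg, abs_one, one_pow]
  rw [← h3, tl_succ h]
  have h4 : (ql ξ (n + 1) : ℝ) * tl ξ n - ql ξ n * (-xl ξ n * tl ξ n) =
      (ql ξ (n + 1) + ql ξ n * xl ξ n) * tl ξ n := by ring
  rw [h4, abs_mul, abs_mul, abs_neg, abs_of_pos hx,
    abs_of_nonneg (show (0 : ℝ) ≤ ql ξ (n + 1) + ql ξ n * xl ξ n by positivity)]
  ring

theorem qt_le {ξ : ℝ} (h : Irrational ξ) (n : ℕ) :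
    (ql ξ (n + 1) : ℝ) * |tl ξ n| ≤ 1 ∧ (ql ξ n : ℝ) * |tl ξ (n + 1)| ≤ 1 ∧ (ql ξ n : ℝ) * |tl ξ n| ≤ 1 := by
  have h1 := sum_one h n
  have hq := ql_mono h n
  have hq0 : (0 : ℝ) ≤ ql ξ n := by exact_mod_cast hq.1
  have hq1 : (0 : ℝ) ≤ ql ξ (n + 1) := by exact_mod_cast (by omega : 0 ≤ ql ξ (n + 1))
  have hq2 : (ql ξ n : ℝ) ≤ ql ξ (n + 1) := by exact_mod_cast hq.2.2
  have h2 : 0 ≤ (ql ξ (n + 1) : ℝ) * |tl ξ n| := by positivity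
  have h3 : 0 ≤ (ql ξ n : ℝ) * |tl ξ (n + 1)| := by positivity
  have h4 : (ql ξ n : ℝ) * |tl ξ n| ≤ (ql ξ (n + 1) : ℝ) * |tl ξ n| :=
    mul_le_mul_of_nonneg_right hq2 (abs_nonneg _)
  refine ⟨by linarith, by linarith, by linarith⟩

/-- the leading coefficient -/
def ca (A B C : ℤ) (ξ : ℝ) (n : ℕ) : ℤ := A * pl ξ n ^ 2 + B * pl ξ n * ql ξ n + C * ql ξ n ^ 2

/-- the middle coefficient -/
def cb (A B C : ℤ) (ξ : ℝ) (n : ℕ) : ℤ :=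
  2 * A * pl ξ n * pl ξ (n + 1) + B * (pl ξ n * ql ξ (n + 1) + pl ξ (n + 1) * ql ξ n) +
    2 * C * ql ξ n * ql ξ (n + 1)

section

variable {ξ : ℝ} {A B C : ℤ}

theorem pl_eq (ξ : ℝ) (n : ℕ) : (pl ξ n : ℝ) = ql ξ n * ξ - tl ξ n := by
  rw [tl]
  ring

theorem ca_eq (hr : (A : ℝ) * ξ ^ 2 + B * ξ + C = 0) (n : ℕ) :
    (ca A B C ξ n : ℝ) = A * tl ξ n ^ 2 - (2 * A * ξ + B) * (ql ξ n * tl ξ n) := by
  have hC : (C : ℝ) = -(A * ξ ^ 2 + B * ξ) := by linarith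
  rw [ca]
  push_cast
  rw [pl_eq, hC]
  ring

theorem cb_eq (hr : (A : ℝ) * ξ ^ 2 + B * ξ + C = 0) (n : ℕ) :
    (cb A B C ξ n : ℝ) = 2 * A * (tl ξ n * tl ξ (n + 1)) -
      (2 * A * ξ + B) * (ql ξ n * tl ξ (n + 1) + ql ξ (n + 1) * tl ξ n) := by
  have hC : (C : ℝ) = -(A * ξ ^ 2 + B * ξ) := by linarith
  rw [cb]
  push_cast
  rw [pl_eq, pl_eq, hC]
  ring

theorem ca_le (h : Irrational ξ) (hr : (A : ℝ) * ξ ^ 2 + B * ξ + C = 0) (n : ℕ) :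
    |(ca A B C ξ n : ℝ)| ≤ |(A : ℝ)| + |2 * A * ξ + B| := by
  rw [ca_eq hr]
  have hq : (0 : ℝ) ≤ ql ξ n := by exact_mod_cast (ql_mono h n).1
  have h1 : |(A : ℝ) * tl ξ n ^ 2| ≤ |(A : ℝ)| := by
    rw [abs_mul, abs_pow]
    have h2 : |tl ξ n| ^ 2 ≤ 1 := pow_le_one₀ (abs_nonneg _) (tl_le_one h n)
    nlinarith [abs_nonneg (A : ℝ)]
  have h2 : |(2 * A * ξ + B) * (ql ξ n * tl ξ n)| ≤ |2 * A * ξ + B| := by
    rw [abs_mul, abs_mul, abs_of_nonneg hq]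
    have h3 := (qt_le h n).2.2
    nlinarith [abs_nonneg (2 * A * ξ + B)]
  exact (abs_sub _ _).trans (add_le_add h1 h2)

theorem cb_le (h : Irrational ξ) (hr : (A : ℝ) * ξ ^ 2 + B * ξ + C = 0) (n : ℕ) :
    |(cb A B C ξ n : ℝ)| ≤ 2 * |(A : ℝ)| + 2 * |2 * A * ξ + B| := by
  rw [cb_eq hr]
  have hq : (0 : ℝ) ≤ ql ξ n := by exact_mod_cast (ql_mono h n).1
  have hq1 : (0 : ℝ) ≤ ql ξ (n + 1) := by
    have := ql_mono h n
    exact_mod_cast (by omega : 0 ≤ ql ξ (n + 1))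
  have h1 : |2 * (A : ℝ) * (tl ξ n * tl ξ (n + 1))| ≤ 2 * |(A : ℝ)| := by
    rw [abs_mul, abs_mul, abs_two]
    have h2 : |tl ξ n * tl ξ (n + 1)| ≤ 1 := by
      rw [abs_mul]
      exact mul_le_one₀ (tl_le_one h n) (abs_nonneg _) (tl_le_one h (n + 1))
    nlinarith [abs_nonneg (A : ℝ)]
  have h2 : |(2 * A * ξ + B) * (ql ξ n * tl ξ (n + 1) + ql ξ (n + 1) * tl ξ n)| ≤
      2 * |2 * A * ξ + B| := by
    rw [abs_mul]
    have h3 : |(ql ξ n : ℝ) * tl ξ (n + 1) + ql ξ (n + 1) * tl ξ n| ≤ 2 := by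
      refine (abs_add_le _ _).trans ?_
      rw [abs_mul, abs_mul, abs_of_nonneg hq, abs_of_nonneg hq1]
      have h4 := qt_le h n
      linarith [h4.1, h4.2.1]
    nlinarith [abs_nonneg (2 * A * ξ + B)]
  exact (abs_sub _ _).trans (add_le_add h1 h2)

theorem root (h : Irrational ξ) (hr : (A : ℝ) * ξ ^ 2 + B * ξ + C = 0) (n : ℕ) :
    (ca A B C ξ n : ℝ) * xl ξ n ^ 2 + cb A B C ξ n * xl ξ n + ca A B C ξ (n + 1) = 0 := by
  have h1 := tl_succ h n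
  rw [ca_eq hr, ca_eq hr, cb_eq hr, h1]
  ring

theorem ca_ne (h : Irrational ξ) (hA : A ≠ 0) (hr : (A : ℝ) * ξ ^ 2 + B * ξ + C = 0) (n : ℕ) :
    ca A B C ξ (n + 1) ≠ 0 := by
  intro h0
  have h1 : (ca A B C ξ (n + 1) : ℝ) = 0 := by exact_mod_cast h0
  have ht : tl ξ (n + 1) ≠ 0 := by
    intro h2
    have h3 : ξ = (pl ξ (n + 1) : ℝ) / (ql ξ (n + 1) : ℝ) := by
      have h4 : (ql ξ (n + 1) : ℝ) ≠ 0 := by
        have := (ql_mono h n).2.1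
        exact_mod_cast (by omega : ql ξ (n + 1) ≠ 0)
      rw [tl] at h2
      field_simp
      linarith
    apply h.ne_rat ((pl ξ (n + 1) : ℚ) / (ql ξ (n + 1) : ℚ))
    push_cast
    exact h3
  have h2 : (A : ℝ) * tl ξ (n + 1) = (2 * A * ξ + B) * ql ξ (n + 1) := by
    rw [ca_eq hr] at h1
    have h3 : tl ξ (n + 1) * (A * tl ξ (n + 1) - (2 * A * ξ + B) * ql ξ (n + 1)) = 0 := by
      rw [← h1]
      ring
    rcases mul_eq_zero.1 h3 with h4 | h4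
    · exact absurd h4 ht
    · linarith
  have hq : (ql ξ (n + 1) : ℝ) ≠ 0 := by
    have := (ql_mono h n).2.1
    exact_mod_cast (by omega : ql ξ (n + 1) ≠ 0)
  have hA' : (A : ℝ) ≠ 0 := by exact_mod_cast hA
  rw [tl] at h2
  have h3 : ξ = (-(A * pl ξ (n + 1) + B * ql ξ (n + 1)) : ℝ) / (A * ql ξ (n + 1)) := by
    rw [eq_div_iff (mul_ne_zero hA' hq)]
    linarith
  apply h.ne_rat ((-(A * pl ξ (n + 1) + B * ql ξ (n + 1)) : ℚ) / (A * ql ξ (n + 1)))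
  push_cast
  exact h3

end

/-- the roots of a quadratic polynomial -/
theorem fin_real (a b c : ℝ) (ha : a ≠ 0) : {x : ℝ | a * x ^ 2 + b * x + c = 0}.Finite := by
  have hp : (Polynomial.C a * Polynomial.X ^ 2 + Polynomial.C b * Polynomial.X + Polynomial.C c) ≠ 0 := by
    intro h0
    have h1 := congrArg (fun p => Polynomial.coeff p 2) h0
    simp at h1
    exact ha h1
  refine (Polynomial.finite_setOfPred_isRoot hp).subset ?_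
  intro x hx
  rw [Set.mem_ofPred_eq] at hx ⊢
  simp [Polynomial.IsRoot, hx]

/-- the roots of a quadratic polynomial with integral coefficients -/
theorem fin_roots (a b c : ℤ) (ha : a ≠ 0) : {x : ℝ | (a : ℝ) * x ^ 2 + b * x + c = 0}.Finite :=
  fin_real a b c (by exact_mod_cast ha)

theorem t_LAG : J_LAG := by
  intro ξ h A B C hA hr
  obtain ⟨M, hM⟩ := exists_nat_ge (2 * |(A : ℝ)| + 2 * |2 * A * ξ + B|)
  have hA0 := abs_nonneg (A : ℝ)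
  have hB0 := abs_nonneg (2 * A * ξ + B)
  have hfin : (⋃ t ∈ ((Icc (-(M : ℤ)) M) ×ˢ (Icc (-(M : ℤ)) M) ×ˢ (Icc (-(M : ℤ)) M)).filter
      (fun t : ℤ × ℤ × ℤ => t.1 ≠ 0), {x : ℝ | (t.1 : ℝ) * x ^ 2 + t.2.1 * x + t.2.2 = 0}).Finite := by
    apply Set.Finite.biUnion (Finset.finite_toSet _)
    intro t ht
    rw [mem_coe, mem_filter] at ht
    exact fin_roots _ _ _ ht.2
  have hmem : ∀ n : ℕ, xl ξ (n + 1) ∈ ⋃ t ∈ ((Icc (-(M : ℤ)) M) ×ˢ (Icc (-(M : ℤ)) M) ×ˢ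
      (Icc (-(M : ℤ)) M)).filter (fun t : ℤ × ℤ × ℤ => t.1 ≠ 0),
      {x : ℝ | (t.1 : ℝ) * x ^ 2 + t.2.1 * x + t.2.2 = 0} := by
    intro n
    have hi : ∀ z : ℤ, |(z : ℝ)| ≤ M → z ∈ Icc (-(M : ℤ)) M := by
      intro z hz
      rw [mem_Icc, ← abs_le]
      exact_mod_cast hz
    rw [Set.mem_iUnion₂]
    refine ⟨(ca A B C ξ (n + 1), cb A B C ξ (n + 1), ca A B C ξ (n + 2)), ?_, root h hr (n + 1)⟩
    rw [mem_filter, mem_product, mem_product]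
    refine ⟨⟨hi _ ?_, hi _ ?_, hi _ ?_⟩, ca_ne h hA hr n⟩
    · exact (ca_le h hr _).trans (by linarith)
    · exact (cb_le h hr _).trans hM
    · exact (ca_le h hr _).trans (by linarith)
  obtain ⟨m, n, hmn, heq⟩ : ∃ m n : ℕ, m < n ∧ xl ξ (m + 1) = xl ξ (n + 1) := by
    by_contra hne
    push Not at hne
    have hinj : Function.Injective fun n : ℕ => xl ξ (n + 1) := by
      intro a b hab
      rcases lt_trichotomy a b with h1 | h1 | h1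
      · exact absurd hab (hne a b h1)
      · exact h1
      · exact absurd hab.symm (hne b a h1)
    exact Set.infinite_of_injective_forall_mem hinj hmem hfin
  refine ⟨m + 2, n - m, by omega, ?_⟩
  intro k hk
  obtain ⟨j, rfl⟩ := Nat.exists_eq_add_of_le hk
  clear hk
  induction j with
  | zero =>
    rw [show m + 2 + 0 + (n - m) = (n + 1) + 1 by omega, show m + 2 + 0 = (m + 1) + 1 by ring, cq_succ,
      cq_succ, heq]
  | succ j ih =>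
    rw [show m + 2 + (j + 1) + (n - m) = (m + 2 + j + (n - m)) + 1 by ring,
      show m + 2 + (j + 1) = (m + 2 + j) + 1 by ring, cq_succ, cq_succ, xl, xl, ih]

end

end Pool.Agent.Q129.OR
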