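import Pool.Agent.Q67.OR.Stm

/-! # Project OR of helper67: job VAL -/

set_option autoImplicit false

namespace Pool.Agent.Q129.OR

open Finset Pool.Agent.Q67.OR

theorem t_VAL : J_VAL := by
  intro A qq b hA h0 h1 hq hb0 hbA hc i
  induction i using Nat.strong_induction_on with
  | _ i ih =>
    match i with
    | 0 => simp [h1]
    | 1 =>
      rw [sum_range_one, hq 0, h0, h1]
      omega
    | i + 2 =>
      rw [sum_range_succ, hq (i + 1)]
      by_cases h : b (i + 1) = A (i + 1)
      · rw [sum_range_succ, hc i h, zero_mul, add_zero, h]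
        have h2 := ih i (by omega)
        linarith
      · have h2 : b (i + 1) + 1 ≤ A (i + 1) := Nat.lt_of_le_of_ne (hbA _) h
        have h3 := ih (i + 1) (by omega)
        have h4 := Nat.mul_le_mul_right (qq (i + 1 + 1)) h2
        rw [Nat.add_mul, one_mul] at h4
        omega

end Pool.Agent.Q129.OR
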