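import Pool.Agent.Q67.OR.Stm

/-! # Project OR of helper67: job WIN -/

set_option autoImplicit false

namespace Pool.Agent.Q129.OR

open Finset Pool.Agent.Q67.OR

/-- the passage from the window of `y` at `v` to that at `u`, opposite signs -/
theorem flip {y u v w : ℝ} (huv : v * u < 0) (h1 : -v ^ 2 ≤ y * v) (h2 : y * v ≤ -w * v) :
    y * u ≤ -v * u ∧ -w * u ≤ y * u := by
  have hv : v ≠ 0 := by
    rintro rfl
    simp at huv
  have hv2 : 0 < v ^ 2 := by positivity
  constructor
  · by_contra h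
    push Not at h
    have h3 : 0 < (y * u - -v * u) * v ^ 2 := mul_pos (by linarith) hv2
    have h4 : (y * u - -v * u) * v ^ 2 = (y * v + v ^ 2) * (v * u) := by ring
    have h5 : (y * v + v ^ 2) * (v * u) ≤ 0 := mul_nonpos_of_nonneg_of_nonpos (by linarith) huv.le
    linarith
  · by_contra h
    push Not at h
    have h3 : 0 < (-w * u - y * u) * v ^ 2 := mul_pos (by linarith) hv2
    have h4 : (-w * u - y * u) * v ^ 2 = (-w * v - y * v) * (v * u) := by ring
    have h5 : (-w * v - y * v) * (v * u) ≤ 0 := mul_nonpos_of_nonneg_of_nonpos (by linarith) huv.le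
    linarith

theorem signed {ξ : ℝ} {A qq : ℕ → ℕ} {pp : ℕ → ℤ} {th : ℕ → ℝ} (h : CF ξ A qq pp th) :
    ∀ (d : List ℕ) (i : ℕ), ok A i d →
      -(th (i + 1)) ^ 2 ≤ pos th i d * th (i + 1) ∧ pos th i d * th (i + 1) ≤ -th i * th (i + 1) := by
  intro d
  induction d with
  | nil =>
    intro i _
    have h1 := h.alt i
    rw [pos, zero_mul]
    constructor
    · nlinarith [sq_nonneg (th (i + 1))]
    · linarith
  | cons b d ih =>
    intro i hok
    rw [ok] at hok
    obtain ⟨h1, h2⟩ := ih (i + 1) hok.2.2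
    obtain ⟨h3, h4⟩ := flip (h.alt (i + 1)) h1 h2
    have hb : (b : ℝ) ≤ A i := by exact_mod_cast hok.1
    have hb0 : (0 : ℝ) ≤ b := Nat.cast_nonneg _
    have h5 := h.ths i
    have h6 : 0 ≤ th (i + 1) ^ 2 := sq_nonneg _
    have h7 : (b : ℝ) * th (i + 1) ^ 2 ≤ A i * th (i + 1) ^ 2 := mul_le_mul_of_nonneg_right hb h6
    have h8 : 0 ≤ (b : ℝ) * th (i + 1) ^ 2 := mul_nonneg hb0 h6
    have h9 : pos th i (b :: d) * th (i + 1) = b * th (i + 1) ^ 2 + pos th (i + 1) d * th (i + 1) := by
      rw [pos]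
      ring
    rw [h9]
    constructor
    · nlinarith
    · have h10 : -th i * th (i + 1) = A i * th (i + 1) ^ 2 + -th (i + 1 + 1) * th (i + 1) := by
        rw [show i + 1 + 1 = i + 2 by ring, h5]
        ring
      rw [h10]
      linarith

theorem t_WIN : J_WIN := by
  intro ξ A qq pp th h d i hok
  obtain ⟨h1, h2⟩ := signed h d i hok
  have h3 := h.alt i
  have h4 := h.dec i
  have h5 : th (i + 1) ≠ 0 := by
    intro h0
    rw [h0, zero_mul] at h3
    exact lt_irrefl _ h3
  have h6 : 0 < |th (i + 1)| := abs_pos.2 h5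
  have h7 : |th i| * |th (i + 1)| = -th i * th (i + 1) := by
    rw [← abs_mul, mul_comm (th i), abs_of_neg h3]
    ring
  have h8 : th (i + 1) ^ 2 ≤ |th i| * |th (i + 1)| := by
    rw [← sq_abs, sq]
    exact mul_le_mul_of_nonneg_right h4.le h6.le
  have h9 : |pos th i d| * |th (i + 1)| ≤ |th i| * |th (i + 1)| := by
    rw [← abs_mul, abs_le]
    constructor
    · linarith
    · rw [h7]
      exact h2
  exact le_of_mul_le_mul_right h9 h6

end Pool.Agent.Q129.OR
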